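import Mathlib
import Pool.Agent.W139.PX.D1

/-!
# The alternating majorant without the first `g` positions (project PM of helper54, brick G3)
-/

set_option autoImplicit false

namespace Pool.Agent.K3h67.PM

open Finset Pool.Agent.Helper112 Pool.Agent.W89.PW
open Pool.Agent.H39R3.PB (ph pts apts ph_nonneg ph_le_one pts_mono pts_le_apts pts_add pts_mul_left)
open Pool.Agent.H39R3.PS (EM)
open Pool.Agent.W139.PW (MxOK Mx MajOK sq_sum_ee digs NB NB_inj NB_le PS_eq PS card_digs apts_sq apts_Mx apts_mul_left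
  apts_sum Mx_nonneg)
open Pool.Agent.W139.PX (SS SS_sub map_sub prod_shift prod_shift' alt prod_alt_le EM_mono EM_sq)

/-- leaving out the positions `< g` costs at most `b ^ g` -/
theorem prod_filter_le (b s t g L J K i : ℕ) (hb : 2 ≤ b) (hs : 1 ≤ s) (ht : 1 ≤ t) (hsb : s ≤ b)
    (htb : t ≤ b) :
    ∏ c ∈ (SS L J K i).filter (fun c => g ≤ c), (1 / (alt s t c : ℝ)) ≤
      (b : ℝ) ^ g * ∏ c ∈ SS L J K i, (1 / (alt s t c : ℝ)) := by
  have hb1 : (1 : ℝ) ≤ b := by exact_mod_cast (by omega : 1 ≤ b)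
  have hb0 : (0 : ℝ) < b := by linarith
  have halt1 : ∀ c, 1 ≤ alt s t c := by
    intro c
    unfold alt
    split_ifs <;> assumption
  have halt2 : ∀ c, alt s t c ≤ b := by
    intro c
    unfold alt
    split_ifs <;> assumption
  rw [← prod_filter_mul_prod_filter_not (SS L J K i) (fun c => g ≤ c)]
  have h1 : (1 : ℝ) ≤ (b : ℝ) ^ g *
      ∏ c ∈ (SS L J K i).filter (fun c => ¬ g ≤ c), (1 / (alt s t c : ℝ)) := by
    have h2 : ((1 : ℝ) / b) ^ ((SS L J K i).filter (fun c => ¬ g ≤ c)).card ≤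
        ∏ c ∈ (SS L J K i).filter (fun c => ¬ g ≤ c), (1 / (alt s t c : ℝ)) := by
      rw [← prod_const]
      apply prod_le_prod
      · intro c _; positivity
      · intro c _
        have h3 : (0 : ℝ) < alt s t c := by exact_mod_cast halt1 c
        have h4 : (alt s t c : ℝ) ≤ b := by exact_mod_cast halt2 c
        exact one_div_le_one_div_of_le h3 h4
    have h3 : ((SS L J K i).filter (fun c => ¬ g ≤ c)).card ≤ g := by
      calc ((SS L J K i).filter (fun c => ¬ g ≤ c)).card ≤ (range g).card := by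
            apply card_le_card
            intro c hc
            rw [mem_filter] at hc
            rw [mem_range]
            omega
        _ = g := card_range g
    have h4 : ((1 : ℝ) / b) ^ g ≤ ((1 : ℝ) / b) ^ ((SS L J K i).filter (fun c => ¬ g ≤ c)).card :=
      pow_le_pow_of_le_one (by positivity) (by rw [div_le_one hb0]; exact hb1) h3
    calc (1 : ℝ) = (b : ℝ) ^ g * ((1 : ℝ) / b) ^ g := by
          rw [← mul_pow, mul_one_div_cancel hb0.ne', one_pow]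
      _ ≤ _ := by gcongr; exact h4.trans h2
  have h0 : 0 ≤ ∏ c ∈ (SS L J K i).filter (fun c => g ≤ c), (1 / (alt s t c : ℝ)) :=
    prod_nonneg fun c _ => by positivity
  calc _ = (∏ c ∈ (SS L J K i).filter (fun c => g ≤ c), (1 / (alt s t c : ℝ))) * 1 := (mul_one _).symm
    _ ≤ (∏ c ∈ (SS L J K i).filter (fun c => g ≤ c), (1 / (alt s t c : ℝ))) * ((b : ℝ) ^ g *
      ∏ c ∈ (SS L J K i).filter (fun c => ¬ g ≤ c), (1 / (alt s t c : ℝ))) :=
        mul_le_mul_of_nonneg_left h1 h0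
    _ = _ := by ring

/-- the alternating majorant: mean value `1 / sqrt (s t)` -/
theorem majG_alt {b s t : ℕ} (g : ℕ) (hb : 2 ≤ b) (hs : 1 ≤ s) (ht : 1 ≤ t) (hsb : s ≤ b) (htb : t ≤ b) {H : ℝ}
    (hH0 : 0 < H) (hH1 : H ≤ 1) (hH : H ^ 2 = 1 / ((s : ℝ) * t)) (L J K i : ℕ) (T : ℝ) (hK : 1 ≤ K)
    (hT : ∀ n : ℕ, 1 ≤ n → n ≤ b ^ (2 * L + 3) → (n.divisors.card : ℝ) ≤ T) :
  (∀ Q : ℕ, pts b Q (fun α => ∏ c ∈ (SS L J K i).filter (fun c => g ≤ c), ps s t (fr b L c * α)) ≤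
    2 * Q * (Q * (((b : ℝ) ^ g / H ^ 3) * H ^ (L - K)) + T)) ∧
  (∀ P : ℕ, 1 ≤ P → ∑ m ∈ (Ico P (2 * P)).filter (fun m => m.Coprime (2 * b)),
    EM (m ^ 2) (fun α => ∏ c ∈ (SS L J K i).filter (fun c => g ≤ c), ps s t (fr b L c * α)) ≤
      P * (((b : ℝ) ^ g / H ^ 3) * H ^ (L - K)) + T) := by
  have hT' : ∀ n : ℕ, 1 ≤ n → n ≤ b ^ (2 * (L + 1) + 1) → (n.divisors.card : ℝ) ≤ T := by
    intro n h1 h2
    exact hT n h1 (by rwa [show 2 * (L + 1) + 1 = 2 * L + 3 by ring] at h2)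
  set B := (SS L J K i).filter (fun c => g ≤ c) with hB
  have hBL : B ⊆ range L := (filter_subset _ _).trans (SS_sub _ _ _ _)
  set B' := B.map (addRightEmbedding 1) with hB'
  have hB'L := map_sub L B hBL
  -- sizes
  have halt1 : ∀ s t : ℕ, 1 ≤ s → 1 ≤ t → ∀ c, 1 ≤ alt s t c := by
    intro s t hs ht c
    unfold alt
    split_ifs <;> assumption
  have halt2 : ∀ s t : ℕ, s ≤ b → t ≤ b → ∀ c, alt s t c ≤ b := by
    intro s t hs ht c
    unfold alt
    split_ifs <;> assumption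
  -- product bounds
  have hpb : ∀ s t : ℕ, 1 ≤ s → 1 ≤ t → s ≤ b → t ≤ b → H ^ 2 = 1 / ((s : ℝ) * t) →
      ∏ c ∈ B', (1 / ((alt s t (c - 1) : ℕ) : ℝ)) ≤ (b : ℝ) ^ g / H ^ 3 * H ^ (L - K) := by
    intro s t hs ht hsb htb hH
    rw [hB', prod_shift' B (fun c => (1 / (alt s t c : ℝ)))]
    obtain ⟨n, hn1, hn2⟩ := prod_alt_le s t L J K i hs ht hK
    refine (prod_filter_le b s t g L J K i hb hs ht hsb htb).trans ?_
    have h2 : ∏ c ∈ SS L J K i, (1 / (alt s t c : ℝ)) ≤ 1 / H ^ 3 * H ^ (L - K) := by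
      refine hn2.trans ?_
      rw [← hH, ← pow_mul]
      have h1 : H ^ (2 * n + 3) ≤ H ^ (L - K) := pow_le_pow_of_le_one hH0.le hH1 hn1
      rw [div_mul_eq_mul_div, one_mul, le_div_iff₀ (by positivity), ← pow_add]
      exact h1
    calc _ ≤ (b : ℝ) ^ g * (1 / H ^ 3 * H ^ (L - K)) := by gcongr
      _ = _ := by ring
  have hp1 := hpb s t hs ht hsb htb hH
  have hp2 := hpb t s ht hs htb hsb (by rw [hH, mul_comm])
  have hpt : ∀ α : ℝ, ∏ c ∈ B, ps s t (fr b L c * α) ≤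
      (1 / 2) * ∏ c ∈ B', ph (alt s t (c - 1)) (Pool.Agent.H39R3.PB.fr b (L + 1) c * α) ^ 2 +
      (1 / 2) * ∏ c ∈ B', ph (alt t s (c - 1)) (Pool.Agent.H39R3.PB.fr b (L + 1) c * α) ^ 2 := by
    intro α
    have e1 : ∏ c ∈ B, ps s t (fr b L c * α) =
        (∏ c ∈ B', ph (alt s t (c - 1)) (Pool.Agent.H39R3.PB.fr b (L + 1) c * α)) *
        ∏ c ∈ B', ph (alt t s (c - 1)) (Pool.Agent.H39R3.PB.fr b (L + 1) c * α) := by
      rw [← prod_mul_distrib, hB', ← prod_shift L B (fun c x => ph (alt s t c) x * ph (alt t s c) x) α]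
      apply prod_congr rfl
      intro c _
      unfold ps alt
      split_ifs
      · rfl
      · rw [mul_comm]
    rw [e1, prod_pow, prod_pow]
    nlinarith [sq_nonneg ((∏ c ∈ B', ph (alt s t (c - 1)) (Pool.Agent.H39R3.PB.fr b (L + 1) c * α)) -
      ∏ c ∈ B', ph (alt t s (c - 1)) (Pool.Agent.H39R3.PB.fr b (L + 1) c * α))]
  constructor
  · intro Q
    have h1 := apts_sq hb (L + 1) Q T B' hB'L (fun c => alt s t (c - 1)) (fun c _ => halt2 s t hsb htb _)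
      (fun c _ => halt1 s t hs ht _) hT'
    have h2 := apts_sq hb (L + 1) Q T B' hB'L (fun c => alt t s (c - 1)) (fun c _ => halt2 t s htb hsb _)
      (fun c _ => halt1 t s ht hs _) hT'
    have hpos : ∀ (s : ℕ → ℕ) (α : ℝ), 0 ≤ ∏ c ∈ B', ph (s c) (Pool.Agent.H39R3.PB.fr b (L + 1) c * α) ^ 2 :=
      fun s α => prod_nonneg fun _ _ => sq_nonneg _
    refine (pts_mono hpt).trans ?_
    rw [pts_add, pts_mul_left, pts_mul_left]
    have h3 := (pts_le_apts (b := b) (Q := Q) (hpos (fun c => alt s t (c - 1)))).trans h1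
    have h4 := (pts_le_apts (b := b) (Q := Q) (hpos (fun c => alt t s (c - 1)))).trans h2
    have h5 : 2 * (Q : ℝ) * (Q * ∏ c ∈ B', (1 / ((alt s t (c - 1) : ℕ) : ℝ)) + T) ≤
        2 * Q * (Q * ((b : ℝ) ^ g / H ^ 3 * H ^ (L - K)) + T) := by gcongr
    have h6 : 2 * (Q : ℝ) * (Q * ∏ c ∈ B', (1 / ((alt t s (c - 1) : ℕ) : ℝ)) + T) ≤
        2 * Q * (Q * ((b : ℝ) ^ g / H ^ 3 * H ^ (L - K)) + T) := by gcongr
    linarith
  · intro P hP
    have h1 := EM_sq hb (L + 1) P T B' hB'L (fun c => alt s t (c - 1)) (fun c _ => halt2 s t hsb htb _)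
      (fun c _ => halt1 s t hs ht _) hP hT'
    have h2 := EM_sq hb (L + 1) P T B' hB'L (fun c => alt t s (c - 1)) (fun c _ => halt2 t s htb hsb _)
      (fun c _ => halt1 t s ht hs _) hP hT'
    refine (sum_le_sum fun m _ => EM_mono _ _ _ hpt).trans ?_
    have e1 : ∀ m : ℕ, EM (m ^ 2) (fun α =>
        (1 / 2) * ∏ c ∈ B', ph (alt s t (c - 1)) (Pool.Agent.H39R3.PB.fr b (L + 1) c * α) ^ 2 +
        (1 / 2) * ∏ c ∈ B', ph (alt t s (c - 1)) (Pool.Agent.H39R3.PB.fr b (L + 1) c * α) ^ 2) =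
        (1 / 2) * EM (m ^ 2) (fun α =>
          ∏ c ∈ B', ph (alt s t (c - 1)) (Pool.Agent.H39R3.PB.fr b (L + 1) c * α) ^ 2) +
        (1 / 2) * EM (m ^ 2) (fun α =>
          ∏ c ∈ B', ph (alt t s (c - 1)) (Pool.Agent.H39R3.PB.fr b (L + 1) c * α) ^ 2) := by
      intro m
      unfold EM
      rw [sum_add_distrib, ← mul_sum, ← mul_sum]
      ring
    simp only [e1]
    rw [sum_add_distrib, ← mul_sum, ← mul_sum]
    have h5 : (P : ℝ) * ∏ c ∈ B', (1 / ((alt s t (c - 1) : ℕ) : ℝ)) + T ≤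
        P * ((b : ℝ) ^ g / H ^ 3 * H ^ (L - K)) + T := by gcongr
    have h6 : (P : ℝ) * ∏ c ∈ B', (1 / ((alt t s (c - 1) : ℕ) : ℝ)) + T ≤
        P * ((b : ℝ) ^ g / H ^ 3 * H ^ (L - K)) + T := by gcongr
    linarith

end Pool.Agent.K3h67.PM
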